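import Pool.Agent.Work.MP_db9399_dp.Interface
import Pool.Agent.Work.MP_db9399_co.BKW75

/-!
# Block GCOL: proper colouring of a group, with full degrees at `Z`
-/

set_option autoImplicit false

namespace Pool.Agent.Work.MP_db9399_dp.helper45

open Finset Classical
open Pool.Agent.Work.MP_db9399_all (nb)

universe u

/-- proper on a set of items -/
def Prp {ι B : Type*} (R : ι → ι → Prop) (D : Finset ι) (t : ι → B) : Prop :=
  ∀ e ∈ D, ∀ e' ∈ D, e ≠ e' → R e e' → t e ≠ t e'

lemma greedy {ι B : Type*} [DecidableEq ι] [Fintype B] (R : ι → ι → Prop) (hR : ∀ a b, R a b → R b a)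
    (D C : Finset ι) (t : ι → B) (ht : Prp R D t)
    (hC : ∀ e ∈ C, ((D ∪ C).filter (fun e' => e' ≠ e ∧ R e e')).card < Fintype.card B) :
    ∃ t' : ι → B, (∀ e ∈ D, t' e = t e) ∧ Prp R (D ∪ C) t' := by
  induction C using Finset.induction_on with
  | empty => exact ⟨t, fun _ _ => rfl, by simpa using ht⟩
  | insert e C he ih =>
    obtain ⟨t', h1, h2⟩ := ih (fun e' he' => lt_of_le_of_lt (card_le_card (by
      apply filter_subset_filter
      intro x hx
      rw [mem_union] at hx ⊢
      rcases hx with hx | hx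
      · exact Or.inl hx
      · exact Or.inr (mem_insert_of_mem hx))) (hC e' (mem_insert_of_mem he')))
    by_cases hD : e ∈ D
    · refine ⟨t', h1, ?_⟩
      have h3 : D ∪ insert e C = D ∪ C := by
        rw [union_insert, insert_eq_self.2 (mem_union_left _ hD)]
      rw [h3]
      exact h2
    · have hlt := hC e (mem_insert_self _ _)
      obtain ⟨c, hc⟩ : ∃ c : B,
          c ∉ ((D ∪ insert e C).filter (fun e' => e' ≠ e ∧ R e e')).image t' := by
        by_contra hcon
        push Not at hcon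
        have h5 : (univ : Finset B) ⊆
            ((D ∪ insert e C).filter (fun e' => e' ≠ e ∧ R e e')).image t' := fun c _ => hcon c
        have h3 := card_le_card h5
        have h4 := card_image_le
          (s := (D ∪ insert e C).filter (fun e' => e' ≠ e ∧ R e e')) (f := t')
        rw [card_univ] at h3
        omega
      refine ⟨fun x => if x = e then c else t' x, ?_, ?_⟩
      · intro x hx
        have hxe : x ≠ e := by
          rintro rfl
          exact hD hx
        simp only [if_neg hxe]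
        exact h1 x hx
      · have hmem : ∀ x ∈ D ∪ insert e C, x ≠ e → x ∈ D ∪ C := by
          intro x hx hxe
          rw [mem_union, mem_insert] at hx
          rw [mem_union]
          tauto
        intro x hx y hy hxy hr
        by_cases hxe : x = e
        · have hye : y ≠ e := fun h => hxy (hxe.trans h.symm)
          simp only [if_pos hxe, if_neg hye]
          intro h
          apply hc
          rw [mem_image]
          exact ⟨y, mem_filter.2 ⟨hy, hye, hxe ▸ hr⟩, h.symm⟩
        · by_cases hye : y = e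
          · simp only [if_neg hxe, if_pos hye]
            intro h
            apply hc
            rw [mem_image]
            exact ⟨x, mem_filter.2 ⟨hx, hxe, hye ▸ hR _ _ hr⟩, h⟩
          · simp only [if_neg hxe, if_neg hye]
            exact h2 x (hmem x hx hxe) y (hmem y hy hye) hxy hr

/-- the edges `e` and `e'` meet -/
def Mt {W : Type*} (e e' : Sym2 W) : Prop := ∃ x, x ∈ e ∧ x ∈ e'

lemma Mt_symm {W : Type*} (e e' : Sym2 W) (h : Mt e e') : Mt e' e := by
  obtain ⟨x, h1, h2⟩ := h
  exact ⟨x, h2, h1⟩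

lemma meet_card {W : Type*} (D : Finset (Sym2 W)) (N : W → Finset W)
    (hN : ∀ v w, s(v, w) ∈ D → w ∈ N v) (v w : W) (hvw : s(v, w) ∈ D) :
    (D.filter (fun e' => e' ≠ s(v, w) ∧ Mt s(v, w) e')).card + 2 ≤
      (N v).card + (N w).card := by
  have hw := hN v w hvw
  have hv := hN w v (by rw [Sym2.eq_swap]; exact hvw)
  have hsub : D.filter (fun e' => e' ≠ s(v, w) ∧ Mt s(v, w) e') ⊆
      ((N v).erase w).image (fun x => s(v, x)) ∪ ((N w).erase v).image (fun x => s(w, x)) := by
    intro e' he'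
    rw [mem_filter] at he'
    obtain ⟨h1, h2, x, hx, hx'⟩ := he'
    obtain ⟨y, rfl⟩ := Sym2.mem_iff_exists.1 hx'
    rw [mem_union, mem_image, mem_image]
    rcases Sym2.mem_iff.1 hx with rfl | rfl
    · left
      refine ⟨y, mem_erase.2 ⟨?_, hN _ _ h1⟩, rfl⟩
      rintro rfl
      exact h2 rfl
    · right
      refine ⟨y, mem_erase.2 ⟨?_, hN _ _ h1⟩, rfl⟩
      rintro rfl
      exact h2 Sym2.eq_swap
  have h1 := (card_le_card hsub).trans (card_union_le _ _)
  have h2 := card_image_le (s := (N v).erase w) (f := fun x => s(v, x))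
  have h3 := card_image_le (s := (N w).erase v) (f := fun x => s(w, x))
  rw [card_erase_of_mem hw] at h2
  rw [card_erase_of_mem hv] at h3
  have h4 : 0 < (N v).card := card_pos.2 ⟨w, hw⟩
  have h5 : 0 < (N w).card := card_pos.2 ⟨v, hv⟩
  omega

theorem stmt_GCOL : Stmt_GCOL.{u} := by
  intro W _ E Z B _ _ s hs hZ hZZ hV
  have hnb : ∀ v w, w ∈ nb E v ↔ E.Adj v w := by
    intro v w
    unfold nb
    rw [mem_filter]
    exact ⟨fun h => h.2, fun h => ⟨mem_univ _, h⟩⟩
  -- the three kinds of edges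
  set A : Finset (Sym2 W) := univ.filter (fun e => e ∈ E.edgeSet) with hA
  have hAm : ∀ v w, s(v, w) ∈ A ↔ E.Adj v w := by
    intro v w
    rw [hA, mem_filter, SimpleGraph.mem_edgeSet]
    exact ⟨fun h => h.2, fun h => ⟨mem_univ _, h⟩⟩
  set E1 : Finset (Sym2 W) := A.filter (fun e => ∀ x ∈ e, x ∈ Z) with hE1
  have hE1m : ∀ v w, s(v, w) ∈ E1 ↔ E.Adj v w ∧ v ∈ Z ∧ w ∈ Z := by
    intro v w
    rw [hE1, mem_filter, hAm]
    simp only [Sym2.mem_iff, forall_eq_or_imp, forall_eq]
  set E2 : Finset (W × W) := univ.filter (fun p => E.Adj p.1 p.2 ∧ p.1 ∈ Z ∧ p.2 ∉ Z) with hE2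
  have hE2m : ∀ v w, (v, w) ∈ E2 ↔ E.Adj v w ∧ v ∈ Z ∧ w ∉ Z := by
    intro v w
    rw [hE2, mem_filter]
    exact ⟨fun h => h.2, fun h => ⟨mem_univ _, h⟩⟩
  set E3 : Finset (Sym2 W) := A.filter (fun e => ∀ x ∈ e, x ∉ Z) with hE3
  have hE3m : ∀ v w, s(v, w) ∈ E3 ↔ E.Adj v w ∧ v ∉ Z ∧ w ∉ Z := by
    intro v w
    rw [hE3, mem_filter, hAm]
    simp only [Sym2.mem_iff, forall_eq_or_imp, forall_eq]
  -- step 1
  obtain ⟨t1, -, ht1⟩ := greedy (B := B) Mt (Mt_symm (W := W)) ∅ E1
    (fun _ => Classical.arbitrary B) (fun e he => absurd he (notMem_empty e)) (by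
      intro e he
      induction e using Sym2.ind with
      | _ v w =>
        have h1 := (hE1m v w).1 he
        rw [empty_union]
        have h2 := meet_card E1 (fun v => (nb E v).filter (fun w => w ∈ Z)) (by
          intro a b hab
          have := (hE1m a b).1 hab
          exact mem_filter.2 ⟨(hnb a b).2 this.1, this.2.2⟩) v w he
        have h3 := hZZ v h1.2.1
        have h4 := hZZ w h1.2.2
        omega)
  rw [empty_union] at ht1
  -- step 2
  set L : W × W → Finset B := fun p =>
    univ \ (E1.filter (fun e => p.1 ∈ e)).image t1 with hL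
  have hLc : ∀ z ∈ Z, ∀ v, Fintype.card B ≤
      (L (z, v)).card + ((nb E z).filter (fun w => w ∈ Z)).card := by
    intro z hz v
    have h1 : (E1.filter (fun e => z ∈ e)).card ≤ ((nb E z).filter (fun w => w ∈ Z)).card := by
      refine (card_le_card (t := ((nb E z).filter (fun w => w ∈ Z)).image
        (fun x => s(z, x))) ?_).trans card_image_le
      intro e he
      rw [mem_filter] at he
      obtain ⟨y, rfl⟩ := Sym2.mem_iff_exists.1 he.2
      have := (hE1m z y).1 he.1
      exact mem_image.2 ⟨y, mem_filter.2 ⟨(hnb z y).2 this.1, this.2.2⟩, rfl⟩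
    have h2 := card_image_le (s := E1.filter (fun e => z ∈ e)) (f := t1)
    have h3 := card_sdiff_add_card_eq_card (subset_univ ((E1.filter (fun e => z ∈ e)).image t1))
    rw [card_univ] at h3
    simp only [hL]
    omega
  obtain ⟨f, hf1, hf2⟩ := Pool.Agent.Work.MP_db9399_co.bkw E2 L (by
    rintro ⟨z, v⟩ he
    have h1 := (hE2m z v).1 he
    have h2 := hLc z h1.2.1 v
    apply max_le
    · -- the degree of `z`
      have h3 : (E2.filter (fun e' => e'.1 = (z, v).1)).card ≤
          ((nb E z).filter (fun w => ¬ w ∈ Z)).card := by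
        refine card_le_card_of_injOn (fun p => p.2) ?_ ?_
        · rintro ⟨a, b⟩ hab
          have hab' := mem_filter.1 (mem_coe.1 hab)
          have h4 := (hE2m a b).1 hab'.1
          have h5 : a = z := hab'.2
          subst h5
          exact mem_coe.2 (mem_filter.2 ⟨(hnb a b).2 h4.1, h4.2.2⟩)
        · rintro ⟨a, b⟩ hab ⟨a', b'⟩ hab' h
          have h5 : a = z := (mem_filter.1 (mem_coe.1 hab)).2
          have h6 : a' = z := (mem_filter.1 (mem_coe.1 hab')).2
          have h7 : b = b' := h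
          rw [h5, h6, h7]
      have h4 := card_filter_add_card_filter_not (s := nb E z) (fun w => w ∈ Z)
      have h5 := hZ z h1.2.1
      omega
    · have h3 : (E2.filter (fun e' => e'.2 = (z, v).2)).card ≤ (nb E v).card := by
        refine card_le_card_of_injOn (fun p => p.1) ?_ ?_
        · rintro ⟨a, b⟩ hab
          have hab' := mem_filter.1 (mem_coe.1 hab)
          have h4 := (hE2m a b).1 hab'.1
          have h5 : b = v := hab'.2
          subst h5
          exact mem_coe.2 ((hnb b a).2 h4.1.symm)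
        · rintro ⟨a, b⟩ hab ⟨a', b'⟩ hab' h
          have h5 : b = v := (mem_filter.1 (mem_coe.1 hab)).2
          have h6 : b' = v := (mem_filter.1 (mem_coe.1 hab')).2
          have h7 : a = a' := h
          rw [h5, h6, h7]
      have h4 := hV v h1.2.2
      have h5 := hZZ z h1.2.1
      omega)
  -- the colouring of the edges of the first two kinds
  set E2s : Finset (Sym2 W) := E2.image (fun p => s(p.1, p.2)) with hE2s
  set t2 : Sym2 W → B := fun e =>
    if h : ∃ p, p ∈ E2 ∧ s(p.1, p.2) = e then f h.choose else t1 e with ht2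
  have ht2a : ∀ z v, (z, v) ∈ E2 → t2 s(z, v) = f (z, v) := by
    intro z v hzv
    have hex : ∃ p, p ∈ E2 ∧ s(p.1, p.2) = s(z, v) := ⟨(z, v), hzv, rfl⟩
    have h1 : t2 s(z, v) = f hex.choose := by
      simp only [ht2]
      rw [dif_pos hex]
    obtain ⟨h2, h3⟩ := hex.choose_spec
    rw [h1]
    have h4 := (hE2m hex.choose.1 hex.choose.2).1 h2
    have h5 := (hE2m z v).1 hzv
    rcases Sym2.eq_iff.1 h3 with ⟨h6, h7⟩ | ⟨h6, h7⟩
    · have h8 : hex.choose = (z, v) := Prod.ext h6 h7
      rw [h8]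
    · rw [h6] at h4
      exact absurd h4.2.1 h5.2.2
  have ht2b : ∀ e ∈ E1, t2 e = t1 e := by
    intro e he
    simp only [ht2]
    rw [dif_neg]
    rintro ⟨⟨a, b⟩, h1, h2⟩
    have h3 := (hE2m a b).1 h1
    rw [← h2] at he
    have h4 := (hE1m a b).1 he
    exact h3.2.2 h4.2.2
  have hLm : ∀ z v, (z, v) ∈ E2 → ∀ e ∈ E1, z ∈ e → f (z, v) ≠ t1 e := by
    intro z v hzv e he hze h
    have h1 := hf1 (z, v) hzv
    simp only [hL, mem_sdiff] at h1
    apply h1.2
    rw [h]
    exact mem_image_of_mem _ (mem_filter.2 ⟨he, hze⟩)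
  have key : ∀ e ∈ E1, ∀ z v, (z, v) ∈ E2 → Mt e s(z, v) → t2 e ≠ t2 s(z, v) := by
    intro e he z v hzv hm h
    rw [ht2a z v hzv, ht2b e he] at h
    obtain ⟨x, hx, hx'⟩ := hm
    have h1 := (hE2m z v).1 hzv
    have h2 : x ∈ Z := (mem_filter.1 he).2 x hx
    rcases Sym2.mem_iff.1 hx' with rfl | rfl
    · exact hLm x v hzv e he hx h.symm
    · exact h1.2.2 h2
  have hp2 : Prp Mt (E1 ∪ E2s) t2 := by
    intro e he e' he' hne hm
    rw [mem_union] at he he'
    rcases he with he | he
    · rcases he' with he' | he'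
      · rw [ht2b e he, ht2b e' he']
        exact ht1 e he e' he' hne hm
      · obtain ⟨⟨z, v⟩, hzv, rfl⟩ := mem_image.1 he'
        exact key e he z v hzv hm
    · obtain ⟨⟨z, v⟩, hzv, rfl⟩ := mem_image.1 he
      rcases he' with he' | he'
      · exact (key e' he' z v hzv (Mt_symm _ _ hm)).symm
      · obtain ⟨⟨z', v'⟩, hzv', rfl⟩ := mem_image.1 he'
        show t2 s(z, v) ≠ t2 s(z', v')
        rw [ht2a z v hzv, ht2a z' v' hzv']
        have h1 := (hE2m z v).1 hzv
        have h2 := (hE2m z' v').1 hzv'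
        apply hf2 (z, v) hzv (z', v') hzv'
        · intro h
          apply hne
          rw [h]
        · obtain ⟨x, hx, hx'⟩ := hm
          simp only [Sym2.mem_iff] at hx hx'
          rcases hx with hx | hx
          · rcases hx' with hx' | hx'
            · exact Or.inl (hx.symm.trans hx')
            · rw [← hx, hx'] at h1
              exact absurd h1.2.1 h2.2.2
          · rcases hx' with hx' | hx'
            · rw [← hx, hx'] at h1
              exact absurd h2.2.1 h1.2.2
            · exact Or.inr (hx.symm.trans hx')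
  -- step 3
  have hsubA : E1 ∪ E2s ∪ E3 ⊆ A := by
    intro e he
    rw [mem_union, mem_union] at he
    rcases he with (he | he) | he
    · exact (mem_filter.1 he).1
    · obtain ⟨⟨a, b⟩, h1, rfl⟩ := mem_image.1 he
      exact (hAm a b).2 ((hE2m a b).1 h1).1
    · exact (mem_filter.1 he).1
  obtain ⟨t3, -, ht3⟩ := greedy Mt (Mt_symm (W := W)) (E1 ∪ E2s) E3 t2 hp2 (by
    intro e he
    induction e using Sym2.ind with
    | _ v w =>
      have h1 := (hE3m v w).1 he
      have h2 := meet_card A (fun v => nb E v) (by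
        intro a b hab
        exact (hnb a b).2 ((hAm a b).1 hab)) v w ((hAm v w).2 h1.1)
      have h3 := hV v h1.2.1
      have h4 := hV w h1.2.2
      have h5 := card_le_card (filter_subset_filter
        (fun e' => e' ≠ s(v, w) ∧ Mt s(v, w) e') hsubA)
      omega)
  have hall : ∀ v w, E.Adj v w → s(v, w) ∈ E1 ∪ E2s ∪ E3 := by
    intro v w h
    rw [mem_union, mem_union]
    by_cases hv : v ∈ Z
    · by_cases hw : w ∈ Z
      · exact Or.inl (Or.inl ((hE1m v w).2 ⟨h, hv, hw⟩))
      · exact Or.inl (Or.inr (mem_image.2 ⟨(v, w), (hE2m v w).2 ⟨h, hv, hw⟩, rfl⟩))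
    · by_cases hw : w ∈ Z
      · exact Or.inl (Or.inr (mem_image.2 ⟨(w, v), (hE2m w v).2 ⟨h.symm, hw, hv⟩, Sym2.eq_swap⟩))
      · exact Or.inr ((hE3m v w).2 ⟨h, hv, hw⟩)
  refine ⟨fun v w => t3 s(v, w), fun v w => ?_, ?_⟩
  · show t3 s(v, w) = t3 s(w, v)
    rw [Sym2.eq_swap]
  intro v w hw w' hw' h
  by_contra hne
  have h1 := (hnb v w).1 (mem_coe.1 hw)
  have h2 := (hnb v w').1 (mem_coe.1 hw')
  refine ht3 s(v, w) (hall v w h1) s(v, w') (hall v w' h2) ?_ ⟨v, ?_, ?_⟩ h
  · intro h3
    rcases Sym2.eq_iff.1 h3 with ⟨-, h4⟩ | ⟨h4, h5⟩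
    · exact hne h4
    · exact hne (h5.trans h4)
  · exact Sym2.mem_mk_left v w
  · exact Sym2.mem_mk_left v w'

end Pool.Agent.Work.MP_db9399_dp.helper45
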