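import Pool.Agent.Work.MP_db9399_dp.Interface

/-!
# Block ICOL: all groups together
-/

set_option autoImplicit false

namespace Pool.Agent.Work.MP_db9399_dp.helper45

open Finset Classical
open Pool.Agent.Work.MP_db9399_all (nb)

universe u

section star
variable {V : Type u} (F : SimpleGraph V) (V0 : Finset V)

lemma star_some (v w : V) : (star F V0).Adj (some v) (some w) ↔ F.Adj v w := by
  unfold star
  rw [SimpleGraph.fromRel_adj]
  constructor
  · rintro ⟨h0, (⟨a, b, h1, h2, h3⟩ | ⟨z, hz, h1, h2⟩) | (⟨a, b, h1, h2, h3⟩ | ⟨z, hz, h1, h2⟩)⟩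
    · rw [Option.some.injEq] at h1 h2
      rw [h1, h2]
      exact h3
    · exact absurd h1 (by simp)
    · rw [Option.some.injEq] at h1 h2
      rw [h1, h2]
      exact h3.symm
    · exact absurd h1 (by simp)
  · intro h
    refine ⟨?_, Or.inl (Or.inl ⟨v, w, rfl, rfl, h⟩)⟩
    rw [Ne, Option.some.injEq]
    exact h.ne

lemma star_none (z : V) : (star F V0).Adj none (some z) ↔ z ∈ V0 := by
  unfold star
  rw [SimpleGraph.fromRel_adj]
  constructor
  · rintro ⟨h0, (⟨a, b, h1, h2, h3⟩ | ⟨y, hy, h1, h2⟩) | (⟨a, b, h1, h2, h3⟩ | ⟨y, hy, h1, h2⟩)⟩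
    · exact absurd h1 (by simp)
    · rw [Option.some.injEq] at h2
      rw [h2]
      exact hy
    · exact absurd h2 (by simp)
    · exact absurd h1 (by simp)
  · intro h
    exact ⟨by simp, Or.inl (Or.inr ⟨z, h, rfl, rfl⟩)⟩

lemma star_none' (z : V) : (star F V0).Adj (some z) none ↔ z ∈ V0 := by
  rw [SimpleGraph.adj_comm]
  exact star_none F V0 z

/-- the type of an edge of the star graph -/
def tt {V : Type u} {γ : Type} (τ : V → V → γ) (g0 : γ) : Option V → Option V → γ
  | some v, some w => τ v w
  | _, _ => g0

lemma tt_comm {γ : Type} (τ : V → V → γ) (g0 : γ) (h : ∀ v w, τ v w = τ w v) (a b : Option V) :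
    tt τ g0 a b = tt τ g0 b a := by
  cases a <;> cases b <;> simp [tt, h]

/-- the edges of type `g` -/
def Eg {γ : Type} (τ : V → V → γ) (g0 : γ) (hτ : ∀ v w, τ v w = τ w v) (g : γ) :
    SimpleGraph (Option V) where
  Adj a b := (star F V0).Adj a b ∧ tt τ g0 a b = g
  symm := ⟨fun a b h => ⟨h.1.symm, (tt_comm τ g0 hτ b a).trans h.2⟩⟩
  loopless := ⟨fun _ h => h.1.ne rfl⟩

end star

theorem stmt_ICOL (hG : Stmt_GCOL.{u}) : Stmt_ICOL.{u} := by
  intro V _ β γ _ gp F Z V0 τ g0 s hV0 hV0s hs hτ hB hZ hZZ hV
  have hnb : ∀ {W : Type u} [Fintype W] (E : SimpleGraph W) (v w : W), w ∈ nb E v ↔ E.Adj v w := by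
    intro W _ E v w
    unfold nb
    rw [mem_filter]
    exact ⟨fun h => h.2, fun h => ⟨mem_univ _, h⟩⟩
  -- the colouring of every group
  have key : ∀ g : γ, ∃ t : Option V → Option V → β, (∀ v w, t v w = t w v) ∧
      (∀ v, Set.InjOn (t v) (nb (Eg F V0 τ g0 hτ g) v : Set (Option V))) ∧
      ∀ v w, gp (t v w) = g := by
    intro g
    have hcard : Fintype.card {b // gp b = g} = (univ.filter (fun b => gp b = g)).card :=
      Fintype.card_subtype _
    have hBg := hB g
    have hne : Nonempty {b // gp b = g} := by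
      rw [← Fintype.card_pos_iff]
      omega
    obtain ⟨t, h1, h2⟩ := hG (Eg F V0 τ g0 hτ g) (Z.image some) {b // gp b = g} s
      (by rw [hcard]; exact hBg)
      (by
        intro z' hz'
        obtain ⟨z, hz, rfl⟩ := mem_image.1 hz'
        rw [hcard]
        refine le_trans ?_ (hZ z hz g)
        have hsub : nb (Eg F V0 τ g0 hτ g) (some z) ⊆
            ((nb F z).filter (fun w => τ z w = g)).image some ∪
              (if z ∈ V0 ∧ g = g0 then {none} else ∅) := by
          intro w hw
          rw [hnb] at hw
          obtain ⟨h3, h4⟩ := hw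
          rw [mem_union]
          cases w with
          | none =>
            right
            rw [star_none'] at h3
            rw [if_pos ⟨h3, h4.symm⟩]
            exact mem_singleton_self _
          | some w =>
            left
            rw [star_some] at h3
            exact mem_image.2 ⟨w, mem_filter.2 ⟨(hnb F z w).2 h3, h4⟩, rfl⟩
        refine (card_le_card hsub).trans ((card_union_le _ _).trans ?_)
        apply add_le_add card_image_le
        split_ifs <;> simp)
      (by
        intro z' hz'
        obtain ⟨z, hz, rfl⟩ := mem_image.1 hz'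
        refine le_trans ?_ (hZZ z hz)
        refine (card_le_card (t := ((nb F z).filter (fun w => w ∈ Z)).image some) ?_).trans
          card_image_le
        intro w hw
        simp only [mem_filter, hnb] at hw
        obtain ⟨⟨h3, h4⟩, h5⟩ := hw
        obtain ⟨y, hy, rfl⟩ := mem_image.1 h5
        rw [star_some] at h3
        exact mem_image.2 ⟨y, mem_filter.2 ⟨(hnb F z y).2 h3, hy⟩, rfl⟩)
      (by
        intro v' hv'
        cases v' with
        | none =>
          refine le_trans ?_ hV0s
          refine (card_le_card (t := V0.image some) ?_).trans card_image_le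
          intro w hw
          rw [hnb] at hw
          obtain ⟨h3, h4⟩ := hw
          cases w with
          | none => exact absurd rfl h3.ne
          | some w =>
            rw [star_none] at h3
            exact mem_image_of_mem _ h3
        | some v =>
          have hvZ : v ∉ Z := fun h => hv' (mem_image_of_mem _ h)
          refine le_trans ?_ (hV v hvZ)
          refine (card_le_card (t := (nb F v).image some) ?_).trans card_image_le
          intro w hw
          rw [hnb] at hw
          obtain ⟨h3, h4⟩ := hw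
          cases w with
          | none =>
            rw [star_none'] at h3
            exact absurd (hV0 h3) hvZ
          | some w =>
            rw [star_some] at h3
            exact mem_image_of_mem _ ((hnb F v w).2 h3))
    refine ⟨fun v w => (t v w).1, fun v w => congrArg Subtype.val (h1 v w), fun v => ?_,
      fun v w => (t v w).2⟩
    intro w hw w' hw' h
    exact h2 v hw hw' (Subtype.ext h)
  choose t ht1 ht2 ht3 using key
  -- the matchings
  set Q : β → Option V → Option V → Prop := fun b v w =>
    (star F V0).Adj v w ∧ tt τ g0 v w = gp b ∧ t (gp b) v w = b with hQ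
  have hQs : ∀ b v w, Q b v w → Q b w v := by
    rintro b v w ⟨h1, h2, h3⟩
    exact ⟨h1.symm, (tt_comm τ g0 hτ w v).trans h2, (ht1 _ w v).trans h3⟩
  have hQu : ∀ b v w w', Q b v w → Q b v w' → w = w' := by
    rintro b v w w' ⟨h1, h2, h3⟩ ⟨h4, h5, h6⟩
    exact ht2 (gp b) v (mem_coe.2 ((hnb _ _ _).2 ⟨h1, h2⟩)) (mem_coe.2 ((hnb _ _ _).2 ⟨h4, h5⟩))
      (h3.trans h6.symm)
  set P : β → Option V → Option V := fun b v =>
    if h : ∃ w, Q b v w then h.choose else v with hP
  have hP1 : ∀ b v w, Q b v w → P b v = w := by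
    intro b v w h
    have hex : ∃ w, Q b v w := ⟨w, h⟩
    simp only [hP]
    rw [dif_pos hex]
    exact hQu b v _ _ hex.choose_spec h
  have hP2 : ∀ b v, P b v ≠ v → Q b v (P b v) := by
    intro b v h
    by_cases hex : ∃ w, Q b v w
    · obtain ⟨w, hw⟩ := hex
      rw [hP1 b v w hw]
      exact hw
    · exfalso
      apply h
      simp only [hP]
      rw [dif_neg hex]
  refine ⟨P, ⟨?_, ?_, ?_, ?_⟩, ?_, ?_⟩
  · intro b v
    by_cases h : P b v = v
    · rw [h, h]
    · exact hP1 b _ _ (hQs _ _ _ (hP2 b v h))
  · intro b b' v hbb h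
    by_contra hne
    have h1 := hP2 b v hne
    have h2 := hP2 b' v (h ▸ hne)
    rw [← h] at h2
    have h3 : gp b = gp b' := h1.2.1.symm.trans h2.2.1
    apply hbb
    rw [← h1.2.2, ← h2.2.2, h3]
  · intro b v h
    exact (hP2 b v h).1
  · intro v w h
    refine ⟨t (tt τ g0 v w) v w, hP1 _ _ _ ⟨h, (ht3 _ _ _).symm, ?_⟩⟩
    rw [ht3]
  · intro b v w hvw h
    have h1 : P b (some v) ≠ some v := by
      rw [h, Ne, Option.some.injEq]
      exact fun h => hvw h.symm
    have h2 := hP2 b _ h1
    rw [h] at h2
    exact h2.2.1.symm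
  · intro b v h
    have h1 : P b none ≠ none := by
      rw [h]
      simp
    have h2 := hP2 b _ h1
    rw [h] at h2
    exact h2.2.1.symm

end Pool.Agent.Work.MP_db9399_dp.helper45
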